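import Pool.Agent.H4.TA.Targets2

/-!
# Row EXC: uniform continuity of the exponential function under dilation
-/

set_option autoImplicit false

open Finset Filter Topology Pool.Agent.H43.TC Pool.Agent.H4.TA

namespace Pool.Agent.H11.TA

lemma exp_sub_le {x y : ℝ} : Real.exp (-x) - Real.exp (-y) ≤ Real.exp (-x) * (y - x) := by
  have h1 : Real.exp (-y) = Real.exp (-x) * Real.exp (-(y - x)) := by
    rw [← Real.exp_add]; congr 1; ring
  have h2 : 1 - (y - x) ≤ Real.exp (-(y - x)) := by
    have := Real.add_one_le_exp (-(y - x))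
    linarith
  have h3 : Real.exp (-x) * (1 - (y - x)) ≤ Real.exp (-x) * Real.exp (-(y - x)) :=
    mul_le_mul_of_nonneg_left h2 (Real.exp_pos _).le
  rw [h1]
  linarith

lemma mul_exp_le {v x δ : ℝ} (hv : 0 ≤ v) (hx : v / 2 ≤ x) (hδ : 0 ≤ δ) :
    Real.exp (-x) * (δ * v) ≤ 2 * δ := by
  have h1 : Real.exp (-x) ≤ Real.exp (-(v / 2)) := Real.exp_le_exp.2 (by linarith)
  have h2 : v / 2 ≤ Real.exp (v / 2) := by
    have := Real.add_one_le_exp (v / 2)
    linarith
  have h3 : Real.exp (-(v / 2)) * v ≤ 2 := by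
    have h4 : Real.exp (-(v / 2)) * Real.exp (v / 2) = 1 := by
      rw [← Real.exp_add]; simp
    have h5 : Real.exp (-(v / 2)) * (v / 2) ≤ Real.exp (-(v / 2)) * Real.exp (v / 2) :=
      mul_le_mul_of_nonneg_left h2 (Real.exp_pos _).le
    linarith
  calc Real.exp (-x) * (δ * v) ≤ Real.exp (-(v / 2)) * (δ * v) :=
        mul_le_mul_of_nonneg_right h1 (by positivity)
    _ = δ * (Real.exp (-(v / 2)) * v) := by ring
    _ ≤ δ * 2 := mul_le_mul_of_nonneg_left h3 hδ
    _ = 2 * δ := by ring

theorem pf_EXC : T_EXC := by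
  intro ε hε
  refine ⟨min (1 / 2) (ε / 2), by positivity, fun a v ha hv => ?_⟩
  have h1 : |a - 1| ≤ 1 / 2 := ha.trans (min_le_left _ _)
  have h2 : |a - 1| ≤ ε / 2 := ha.trans (min_le_right _ _)
  obtain ⟨h3, h4⟩ := abs_le.1 h1
  rcases le_total 1 a with h | h
  · have h5 : |a - 1| = a - 1 := abs_of_nonneg (by linarith)
    rw [abs_sub_comm, abs_of_nonneg]
    · have h6 := @exp_sub_le v (a * v)
      have h7 := mul_exp_le (x := v) hv (by linarith) (by linarith : (0 : ℝ) ≤ a - 1)
      have h8 : a * v - v = (a - 1) * v := by ring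
      rw [h8] at h6
      rw [h5] at h2
      linarith
    · have : v ≤ a * v := le_mul_of_one_le_left hv h
      have := Real.exp_le_exp.2 (neg_le_neg this)
      linarith
  · have h5 : |a - 1| = 1 - a := by rw [abs_sub_comm]; exact abs_of_nonneg (by linarith)
    rw [abs_of_nonneg]
    · have h6 := @exp_sub_le (a * v) v
      have h7 := mul_exp_le (x := a * v) hv (by nlinarith) (by linarith : (0 : ℝ) ≤ 1 - a)
      have h8 : v - a * v = (1 - a) * v := by ring
      rw [h8] at h6
      rw [h5] at h2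
      linarith
    · have : a * v ≤ v := mul_le_of_le_one_left hv h
      have := Real.exp_le_exp.2 (neg_le_neg this)
      linarith

end Pool.Agent.H11.TA
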